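import Mathlib

open Set

namespace Pool.Agent.H92.Comb

/-- sums of elements of `F` with natural coefficients at most `m` -/
def V (m : ℕ) (F : Finset ℝ) : Set ℝ :=
  {v | ∃ w : ℝ → ℕ, (∀ b ∈ F, w b ≤ m) ∧ v = ∑ b ∈ F, (w b : ℝ) * b}

theorem V_add {m m' : ℕ} {F : Finset ℝ} {v v' : ℝ} (h : v ∈ V m F) (h' : v' ∈ V m' F) :
    v + v' ∈ V (m + m') F := by
  obtain ⟨w, hw, rfl⟩ := h
  obtain ⟨w', hw', rfl⟩ := h'
  refine ⟨fun b => w b + w' b, fun b hb => add_le_add (hw b hb) (hw' b hb), ?_⟩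
  rw [← Finset.sum_add_distrib]
  refine Finset.sum_congr rfl fun b _ => ?_
  push_cast
  ring

theorem V_mono {m m' : ℕ} {F F' : Finset ℝ} (hm : m ≤ m') (hF : F ⊆ F') {v : ℝ} (h : v ∈ V m F) :
    v ∈ V m' F' := by
  classical
  obtain ⟨w, hw, rfl⟩ := h
  refine ⟨fun b => if b ∈ F then w b else 0, fun b _ => ?_, ?_⟩
  · by_cases hb : b ∈ F
    · simp only [hb, if_true]
      exact (hw b hb).trans hm
    · simp [hb]
  · rw [← Finset.sum_subset hF]
    · refine Finset.sum_congr rfl fun b hb => ?_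
      simp [hb]
    · intro b _ hb
      simp [hb]

theorem V_zero (m : ℕ) (F : Finset ℝ) : (0 : ℝ) ∈ V m F :=
  ⟨fun _ => 0, fun _ _ => Nat.zero_le _, by simp⟩

theorem V_mul {a : ℕ} {F : Finset ℝ} {b : ℝ} (hb : b ∈ F) : (a : ℝ) * b ∈ V a F := by
  classical
  refine ⟨fun b' => if b' = b then a else 0, fun b' _ => ?_, ?_⟩
  · simp only
    split_ifs
    · exact le_rfl
    · exact Nat.zero_le _
  · rw [Finset.sum_eq_single b]
    · simp
    · intro b' _ hb'
      simp [hb']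
    · intro h
      exact absurd hb h

theorem V_sum {a : ℕ} {F : Finset ℝ} {J : Finset ℕ} {f : ℕ → ℝ} (hf : ∀ j ∈ J, f j ∈ F) :
    (a : ℝ) * ∑ j ∈ J, f j ∈ V (a * J.card) F := by
  classical
  induction J using Finset.induction_on with
  | empty => simpa using V_zero 0 F
  | insert j J hj ih =>
    rw [Finset.sum_insert hj, mul_add, Finset.card_insert_of_notMem hj, mul_add, mul_one, add_comm (a * J.card)]
    exact V_add (V_mul (hf j (Finset.mem_insert_self _ _)))
      (ih fun i hi => hf i (Finset.mem_insert_of_mem hi))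

/-- no infinite set with monochromatic sumset -/
def NoMono {r : ℕ} (c : ℝ → Fin r) : Prop :=
  ¬ ∃ X : Set ℝ, X.Infinite ∧ ∃ k : Fin r, ∀ x ∈ X, ∀ y ∈ X, c (x + y) = k

theorem exists_Z {r : ℕ} {c : ℝ → Fin r} (hno : NoMono c) (P' xs : ℝ) (D : Set (ℕ → ℝ))
    (s : (ℕ → ℝ) → ℝ) :
    ∃ Z : Finset (ℕ → ℝ), (∀ z ∈ Z, z ∈ D ∧ c (2 * P' + 4 * s z) = c (2 * P' + 4 * xs) ∧
        c (2 * P' + 2 * s z + 2 * xs) = c (2 * P' + 4 * xs)) ∧
      ∀ y ∈ D, c (2 * P' + 4 * s y) = c (2 * P' + 4 * xs) →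
        (∀ z ∈ Z, s z ≠ s y ∧ c (2 * P' + 2 * s z + 2 * s y) = c (2 * P' + 4 * xs)) →
        c (2 * P' + 2 * s y + 2 * xs) ≠ c (2 * P' + 4 * xs) := by
  by_contra hcon
  push Not at hcon
  apply hno
  obtain ⟨f, hf1, hf2⟩ := exists_seq_of_forall_finset_exists
    (fun z : ℕ → ℝ => z ∈ D ∧ c (2 * P' + 4 * s z) = c (2 * P' + 4 * xs) ∧
        c (2 * P' + 2 * s z + 2 * xs) = c (2 * P' + 4 * xs))
    (fun z y => s z ≠ s y ∧ c (2 * P' + 2 * s z + 2 * s y) = c (2 * P' + 4 * xs))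
    (fun Z hZ => by
      obtain ⟨y, hy, h1, h2, h3⟩ := hcon Z hZ
      exact ⟨y, ⟨hy, h1, h3⟩, h2⟩)
  refine ⟨range fun n => P' + 2 * s (f n), ?_, c (2 * P' + 4 * xs), ?_⟩
  · refine infinite_range_of_injective ?_
    intro m n hmn
    simp only at hmn
    by_contra hne
    rcases lt_or_gt_of_ne hne with h | h
    · exact (hf2 m n h).1 (by linarith)
    · exact (hf2 n m h).1 (by linarith)
  · rintro _ ⟨m, rfl⟩ _ ⟨n, rfl⟩
    simp only
    rcases lt_trichotomy m n with h | h | h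
    · rw [show P' + 2 * s (f m) + (P' + 2 * s (f n)) = 2 * P' + 2 * s (f m) + 2 * s (f n) by ring]
      exact (hf2 m n h).2
    · subst h
      rw [show P' + 2 * s (f m) + (P' + 2 * s (f m)) = 2 * P' + 4 * s (f m) by ring]
      exact (hf1 m).2.1
    · rw [show P' + 2 * s (f m) + (P' + 2 * s (f n)) = 2 * P' + 2 * s (f n) + 2 * s (f m) by ring]
      exact (hf2 n m h).2

/-- the combinatorial configuration -/
structure Conf {r : ℕ} (c : ℝ → Fin r) (K M : ℕ) (E : ℕ → ℕ → ℝ) (x : ℕ → ℝ) : Prop where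
  inj : ∀ j < K, Function.Injective (E j)
  ne : ∀ i < K, ∀ j < K, ∀ n, E i n ≠ x j
  xne : ∀ i < K, ∀ j < K, i ≠ j → x i ≠ x j
  refl : ∀ j < K, ∀ F : Finset ℝ, (∀ a ∈ F, ∃ i < K, a = x i ∨ ∃ n, a = E i n) → x j ∉ F →
    {n | ∀ v ∈ V M F, c (v + 2 * E j n) = c (v + 2 * x j) ∧
      c (v + 4 * E j n) = c (v + 4 * x j)}.Infinite

/-- the vectors `u_q` -/
noncomputable def u (K : ℕ) (x : ℕ → ℝ) (p' : ℝ) (y : ℕ → ℝ) (l q : ℕ) : ℝ :=
  2 * p' + ∑ j ∈ Finset.Ico l q, (2 * x j + 2 * y j) + ∑ j ∈ Finset.Ico q K, 4 * x j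

/-- the inductive statement -/
def DD {r : ℕ} (c : ℝ → Fin r) (K : ℕ) (E : ℕ → ℕ → ℝ) (x : ℕ → ℝ) (l : ℕ) : Prop :=
  ∀ (F : Finset ℝ) (p' : ℝ) (N : Finset ℝ), (∀ a ∈ F, ∃ i < K, a = x i ∨ ∃ n, a = E i n) →
    (∀ j, l ≤ j → j < K → x j ∉ F) → 2 * p' ∈ V (4 * l) F →
    ∃ y : ℕ → ℝ, (∀ j, l ≤ j → j < K → ∃ n, y j = E j n) ∧
      (∀ q, l ≤ q → q ≤ K → ∀ v ∈ V (10 * K + 4 * l) (F ∪ (Finset.Ico q K).image x),
        c (v + 2 * ∑ j ∈ Finset.Ico l q, y j) = c (v + 2 * ∑ j ∈ Finset.Ico l q, x j) ∧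
        c (v + 4 * ∑ j ∈ Finset.Ico l q, y j) = c (v + 4 * ∑ j ∈ Finset.Ico l q, x j)) ∧
      (∀ q q', l ≤ q → q < q' → q' ≤ K → c (u K x p' y l q) ≠ c (u K x p' y l q')) ∧
      (∀ q, l < q → q ≤ K → ∑ j ∈ Finset.Ico l q, y j ∉ N)

theorem DD_top {r : ℕ} (c : ℝ → Fin r) (K : ℕ) (E : ℕ → ℕ → ℝ) (x : ℕ → ℝ) : DD c K E x K := by
  intro F p' N _ _ _
  refine ⟨fun _ => 0, fun j h1 h2 => absurd h2 (by omega), ?_, fun q q' h1 h2 h3 => absurd h1 (by omega),
    fun q h1 h2 => absurd h1 (by omega)⟩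
  intro q h1 h2 v _
  obtain rfl : q = K := le_antisymm h2 h1
  simp


theorem DD_step {r : ℕ} {c : ℝ → Fin r} (hno : NoMono c) {K : ℕ} {E : ℕ → ℕ → ℝ} {x : ℕ → ℝ}
    (h : Conf c K (18 * K) E x) {l : ℕ} (hl : l < K) (ih : DD c K E x (l + 1)) : DD c K E x l := by
  classical
  intro F p' N hFΓ hFx hp
  -- the finite sets `Z q`
  have hZ := fun q : ℕ => exists_Z hno (p' + ∑ j ∈ Finset.Ico q K, 2 * x j)
    (∑ j ∈ Finset.Ico l q, x j) {z | ∀ j ∈ Finset.Ico l q, ∃ n, z j = E j n}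
    (fun z => ∑ j ∈ Finset.Ico l q, z j)
  choose Z hZ1 hZ2 using hZ
  set CZ : Finset ℝ := (Finset.Ico l (K + 1)).biUnion fun q => (Z q).biUnion fun z =>
    (Finset.Ico l q).image z with hCZ
  have hCZ1 : ∀ a ∈ CZ, ∃ i < K, ∃ n, a = E i n := by
    intro a ha
    simp only [hCZ, Finset.mem_biUnion, Finset.mem_image] at ha
    obtain ⟨q, hq, z, hz, j, hj, rfl⟩ := ha
    obtain ⟨n, hn⟩ := (hZ1 q z hz).1 j hj
    rw [Finset.mem_Ico] at hq hj
    exact ⟨j, by omega, n, hn⟩
  have hCZ2 : ∀ j < K, x j ∉ CZ := by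
    intro j hj hmem
    obtain ⟨i, hi, n, hn⟩ := hCZ1 _ hmem
    exact h.ne i hi j hj n hn.symm
  set F1 : Finset ℝ := F ∪ CZ with hF1
  have hF1Γ : ∀ a ∈ F1, ∃ i < K, a = x i ∨ ∃ n, a = E i n := by
    intro a ha
    rcases Finset.mem_union.1 ha with ha | ha
    · exact hFΓ a ha
    · obtain ⟨i, hi, n, hn⟩ := hCZ1 a ha
      exact ⟨i, hi, Or.inr ⟨n, hn⟩⟩
  have hF1x : ∀ j, l ≤ j → j < K → x j ∉ F1 := by
    intro j h1 h2 hmem
    rcases Finset.mem_union.1 hmem with ha | ha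
    · exact hFx j h1 h2 ha
    · exact hCZ2 j h2 ha
  set Fp : Finset ℝ := F1 ∪ ((Finset.range K).erase l).image x with hFp
  have hFpΓ : ∀ a ∈ Fp, ∃ i < K, a = x i ∨ ∃ n, a = E i n := by
    intro a ha
    rcases Finset.mem_union.1 ha with ha | ha
    · exact hF1Γ a ha
    · obtain ⟨i, hi, rfl⟩ := Finset.mem_image.1 ha
      exact ⟨i, Finset.mem_range.1 (Finset.mem_of_mem_erase hi), Or.inl rfl⟩
  have hFpx : x l ∉ Fp := by
    intro hmem
    rcases Finset.mem_union.1 hmem with ha | ha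
    · exact hF1x l le_rfl hl ha
    · obtain ⟨i, hi, hi'⟩ := Finset.mem_image.1 ha
      exact h.xne i (Finset.mem_range.1 (Finset.mem_of_mem_erase hi)) l hl
        (Finset.ne_of_mem_erase hi) hi'
  set N1 : Finset ℝ := N ∪ (Finset.Ico l (K + 1)).biUnion fun q =>
    (Z q).image fun z => ∑ j ∈ Finset.Ico l q, z j with hN1
  -- choice of `yl`
  obtain ⟨n, hn1, hn2⟩ : ∃ n, (∀ v ∈ V (18 * K) Fp, c (v + 2 * E l n) = c (v + 2 * x l) ∧
      c (v + 4 * E l n) = c (v + 4 * x l)) ∧ E l n ∉ N1 := by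
    have hinf := h.refl l hl Fp hFpΓ hFpx
    have hfin : {n | E l n ∈ N1}.Finite :=
      N1.finite_toSet.preimage (h.inj l hl).injOn
    obtain ⟨n, hn⟩ := (hinf.sdiff hfin).nonempty
    exact ⟨n, hn.1, hn.2⟩
  set yl : ℝ := E l n with hyl
  -- apply the induction hypothesis
  obtain ⟨y, hy0, hy1, hy2, hy3⟩ := ih (insert (x l) (insert yl F1)) (p' + x l + yl)
    (N1.image fun a => a - yl) (by
      intro a ha
      rcases Finset.mem_insert.1 ha with rfl | ha
      · exact ⟨l, hl, Or.inl rfl⟩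
      · rcases Finset.mem_insert.1 ha with rfl | ha
        · exact ⟨l, hl, Or.inr ⟨n, rfl⟩⟩
        · exact hF1Γ a ha) (by
      intro j h1 h2 hmem
      rcases Finset.mem_insert.1 hmem with ha | ha
      · exact h.xne j h2 l hl (by omega) ha
      · rcases Finset.mem_insert.1 ha with ha | ha
        · exact h.ne l hl j h2 n ha.symm
        · exact hF1x j (by omega) h2 ha) (by
      have e1 : 2 * (p' + x l + yl) = 2 * p' + ((2 : ℕ) : ℝ) * x l + ((2 : ℕ) : ℝ) * yl := by
        push_cast; ring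
      rw [e1]
      refine V_mono (m := 4 * l + 2 + 2) (by omega) (Finset.Subset.refl _)
        (V_add (V_add (V_mono le_rfl ?_ hp) (V_mul (Finset.mem_insert_self _ _)))
          (V_mul (Finset.mem_insert_of_mem (Finset.mem_insert_self _ _))))
      intro a ha
      exact Finset.mem_insert_of_mem (Finset.mem_insert_of_mem (Finset.mem_union_left _ ha)))
  set y' : ℕ → ℝ := Function.update y l yl with hy'
  have hy'l : y' l = yl := Function.update_self _ _ _
  have hy'j : ∀ j, l < j → y' j = y j := fun j hj => Function.update_of_ne (by omega) _ _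
  have hsum : ∀ q, l + 1 ≤ q → ∑ j ∈ Finset.Ico l q, y' j = yl + ∑ j ∈ Finset.Ico (l + 1) q, y j := by
    intro q hq
    rw [Finset.sum_eq_sum_Ico_succ_bot (by omega), hy'l]
    congr 1
    exact Finset.sum_congr rfl fun j hj => hy'j j (by rw [Finset.mem_Ico] at hj; omega)
  have hsumx : ∀ q, l + 1 ≤ q → ∑ j ∈ Finset.Ico l q, x j = x l + ∑ j ∈ Finset.Ico (l + 1) q, x j := by
    intro q hq
    rw [Finset.sum_eq_sum_Ico_succ_bot (by omega)]
  have hy'0 : ∀ j, l ≤ j → j < K → ∃ n, y' j = E j n := by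
    intro j h1 h2
    rcases eq_or_lt_of_le h1 with rfl | h1
    · exact ⟨n, hy'l⟩
    · rw [hy'j j h1]
      exact hy0 j h1 h2
  -- (1) for `F1`
  have hy'1 : ∀ q, l ≤ q → q ≤ K → ∀ v ∈ V (10 * K + 4 * l) (F1 ∪ (Finset.Ico q K).image x),
      c (v + 2 * ∑ j ∈ Finset.Ico l q, y' j) = c (v + 2 * ∑ j ∈ Finset.Ico l q, x j) ∧
      c (v + 4 * ∑ j ∈ Finset.Ico l q, y' j) = c (v + 4 * ∑ j ∈ Finset.Ico l q, x j) := by
    intro q h1 h2 v hv
    rcases eq_or_lt_of_le h1 with rfl | h1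
    · simp
    · have hsub : F1 ∪ (Finset.Ico q K).image x ⊆
          insert (x l) (insert yl F1) ∪ (Finset.Ico q K).image x :=
        Finset.union_subset_union_left
          ((Finset.subset_insert _ _).trans (Finset.subset_insert _ _))
      have hmemyl : yl ∈ insert (x l) (insert yl F1) ∪ (Finset.Ico q K).image x :=
        Finset.mem_union_left _ (Finset.mem_insert_of_mem (Finset.mem_insert_self _ _))
      have hsub2 : F1 ∪ (Finset.Ico q K).image x ⊆ Fp := by
        refine Finset.union_subset_union_right (Finset.image_subset_image ?_)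
        intro j hj
        rw [Finset.mem_Ico] at hj
        exact Finset.mem_erase.2 ⟨by omega, Finset.mem_range.2 hj.2⟩
      have hcardle : (Finset.Ico (l + 1) q).card ≤ K := by
        rw [Nat.card_Ico]; omega
      have hsumV : ∀ a : ℕ, (a : ℝ) * ∑ j ∈ Finset.Ico (l + 1) q, x j ∈ V (a * K) Fp := by
        intro a
        refine V_mono (Nat.mul_le_mul_left a hcardle) (Finset.Subset.refl _) (V_sum ?_)
        intro j hj
        rw [Finset.mem_Ico] at hj
        refine Finset.mem_union_right _ (Finset.mem_image_of_mem _ ?_)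
        exact Finset.mem_erase.2 ⟨by omega, Finset.mem_range.2 (by omega)⟩
      rw [hsum q h1, hsumx q h1]
      constructor
      · have h3 : v + ((2 : ℕ) : ℝ) * yl ∈ V (10 * K + 4 * (l + 1))
            (insert (x l) (insert yl F1) ∪ (Finset.Ico q K).image x) :=
          V_mono (m := 10 * K + 4 * l + 2) (by omega) (Finset.Subset.refl _)
            (V_add (V_mono le_rfl hsub hv) (V_mul hmemyl))
        have h4 := (hy1 q h1 h2 _ h3).1
        have h5 : v + ((2 : ℕ) : ℝ) * ∑ j ∈ Finset.Ico (l + 1) q, x j ∈ V (18 * K) Fp :=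
          V_mono (m := 10 * K + 4 * l + 2 * K) (by omega) (Finset.Subset.refl _)
            (V_add (V_mono le_rfl hsub2 hv) (hsumV 2))
        have h6 := (hn1 _ h5).1
        rw [show v + 2 * (yl + ∑ j ∈ Finset.Ico (l + 1) q, y j) =
          v + ((2 : ℕ) : ℝ) * yl + 2 * ∑ j ∈ Finset.Ico (l + 1) q, y j by push_cast; ring, h4,
          show v + ((2 : ℕ) : ℝ) * yl + 2 * ∑ j ∈ Finset.Ico (l + 1) q, x j =
          v + ((2 : ℕ) : ℝ) * ∑ j ∈ Finset.Ico (l + 1) q, x j + 2 * yl by push_cast; ring, h6]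
        congr 1
        push_cast
        ring
      · have h3 : v + ((4 : ℕ) : ℝ) * yl ∈ V (10 * K + 4 * (l + 1))
            (insert (x l) (insert yl F1) ∪ (Finset.Ico q K).image x) :=
          V_mono (m := 10 * K + 4 * l + 4) (by omega) (Finset.Subset.refl _)
            (V_add (V_mono le_rfl hsub hv) (V_mul hmemyl))
        have h4 := (hy1 q h1 h2 _ h3).2
        have h5 : v + ((4 : ℕ) : ℝ) * ∑ j ∈ Finset.Ico (l + 1) q, x j ∈ V (18 * K) Fp :=
          V_mono (m := 10 * K + 4 * l + 4 * K) (by omega) (Finset.Subset.refl _)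
            (V_add (V_mono le_rfl hsub2 hv) (hsumV 4))
        have h6 := (hn1 _ h5).2
        rw [show v + 4 * (yl + ∑ j ∈ Finset.Ico (l + 1) q, y j) =
          v + ((4 : ℕ) : ℝ) * yl + 4 * ∑ j ∈ Finset.Ico (l + 1) q, y j by push_cast; ring, h4,
          show v + ((4 : ℕ) : ℝ) * yl + 4 * ∑ j ∈ Finset.Ico (l + 1) q, x j =
          v + ((4 : ℕ) : ℝ) * ∑ j ∈ Finset.Ico (l + 1) q, x j + 4 * yl by push_cast; ring, h6]
        congr 1
        push_cast
        ring
  -- (3) for `N1`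
  have hy'3 : ∀ q, l < q → q ≤ K → ∑ j ∈ Finset.Ico l q, y' j ∉ N1 := by
    intro q h1 h2 hmem
    rw [hsum q h1] at hmem
    rcases eq_or_lt_of_le (show l + 1 ≤ q from h1) with h3 | h3
    · rw [← h3] at hmem
      simp only [Finset.Ico_self, Finset.sum_empty, add_zero] at hmem
      exact hn2 hmem
    · refine hy3 q h3 h2 (Finset.mem_image.2 ⟨_, hmem, ?_⟩)
      ring
  refine ⟨y', hy'0, ?_, ?_, ?_⟩
  · intro q h1 h2 v hv
    exact hy'1 q h1 h2 v (V_mono le_rfl
      (Finset.union_subset_union_left Finset.subset_union_left) hv)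
  · intro q q' h1 h2 h3
    have hu : ∀ q, l + 1 ≤ q → u K x p' y' l q = u K x (p' + x l + yl) y (l + 1) q := by
      intro q hq
      unfold u
      rw [Finset.sum_eq_sum_Ico_succ_bot (show l < q by omega), hy'l,
        Finset.sum_congr rfl (fun j hj => by
          rw [hy'j j (by rw [Finset.mem_Ico] at hj; omega)] :
          ∀ j ∈ Finset.Ico (l + 1) q, 2 * x j + 2 * y' j = 2 * x j + 2 * y j)]
      ring
    rcases eq_or_lt_of_le h1 with rfl | h1
    · -- the main case `q = l`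
      have hP : 2 * (p' + ∑ j ∈ Finset.Ico q' K, 2 * x j) ∈
          V (4 * l + 4 * K) (F1 ∪ (Finset.Ico q' K).image x) := by
        have e1 : 2 * (p' + ∑ j ∈ Finset.Ico q' K, 2 * x j) =
            2 * p' + ((4 : ℕ) : ℝ) * ∑ j ∈ Finset.Ico q' K, x j := by
          rw [← Finset.mul_sum]; push_cast; ring
        rw [e1]
        refine V_add (V_mono le_rfl (Finset.subset_union_left.trans Finset.subset_union_left) hp) ?_
        refine V_mono (Nat.mul_le_mul_left 4 ?_) (Finset.Subset.refl _)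
          (V_sum fun j hj => Finset.mem_union_right _ (Finset.mem_image_of_mem _ hj))
        rw [Nat.card_Ico]; omega
      have hD : y' ∈ {z : ℕ → ℝ | ∀ j ∈ Finset.Ico l q', ∃ n, z j = E j n} := by
        intro j hj
        rw [Finset.mem_Ico] at hj
        exact hy'0 j hj.1 (by omega)
      have h4 := (hy'1 q' (by omega) h3 _ (V_mono (by omega) (Finset.Subset.refl _) hP)).2
      have h5 := hZ2 q' y' hD h4 (by
        intro z hz
        constructor
        · intro heq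
          refine hy'3 q' h2 h3 (Finset.mem_union_right _ (Finset.mem_biUnion.2
            ⟨q', Finset.mem_Ico.2 (by omega), Finset.mem_image.2 ⟨z, hz, heq⟩⟩))
        · have hmem : 2 * (p' + ∑ j ∈ Finset.Ico q' K, 2 * x j) +
              ((2 : ℕ) : ℝ) * ∑ j ∈ Finset.Ico l q', z j ∈
              V (10 * K + 4 * l) (F1 ∪ (Finset.Ico q' K).image x) := by
            refine V_mono (m := 4 * l + 4 * K + 2 * K) (by omega) (Finset.Subset.refl _)
              (V_add hP (V_mono (Nat.mul_le_mul_left 2 (?_ : (Finset.Ico l q').card ≤ K))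
              (Finset.Subset.refl _) (V_sum ?_)))
            · rw [Nat.card_Ico]; omega
            · intro j hj
              refine Finset.mem_union_left _ (Finset.mem_union_right _ ?_)
              exact Finset.mem_biUnion.2 ⟨q', Finset.mem_Ico.2 (by omega),
                Finset.mem_biUnion.2 ⟨z, hz, Finset.mem_image_of_mem _ hj⟩⟩
          have h6 := (hy'1 q' (by omega) h3 _ hmem).1
          have h7 := (hZ1 q' z hz).2.2
          push_cast at h6
          rw [h6, h7])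
      have e2 : u K x p' y' l l = 2 * (p' + ∑ j ∈ Finset.Ico q' K, 2 * x j) +
          4 * ∑ j ∈ Finset.Ico l q', x j := by
        unfold u
        rw [← Finset.sum_Ico_consecutive (fun j => 4 * x j) (show l ≤ q' by omega) h3]
        simp only [Finset.Ico_self, Finset.sum_empty, ← Finset.mul_sum]
        ring
      have e3 : u K x p' y' l q' = 2 * (p' + ∑ j ∈ Finset.Ico q' K, 2 * x j) +
          2 * ∑ j ∈ Finset.Ico l q', y' j + 2 * ∑ j ∈ Finset.Ico l q', x j := by
        unfold u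
        rw [Finset.sum_add_distrib]
        simp only [← Finset.mul_sum]
        ring
      rw [e2, e3]
      exact fun h => h5 h.symm
    · rw [hu q h1, hu q' (by omega)]
      exact hy2 q q' h1 h2 h3
  · intro q h1 h2 hmem
    exact hy'3 q h1 h2 (Finset.mem_union_left _ hmem)

theorem not_noMono {r : ℕ} {c : ℝ → Fin r} {E : ℕ → ℕ → ℝ} {x : ℕ → ℝ}
    (h : Conf c r (18 * r) E x) : ¬ NoMono c := by
  intro hno
  have hall : ∀ d, d ≤ r → DD c r E x (r - d) := by
    intro d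
    induction d with
    | zero => exact fun _ => DD_top c r E x
    | succ d ih =>
      intro hd
      have h1 := ih (by omega)
      have h2 : r - d = (r - (d + 1)) + 1 := by omega
      rw [h2] at h1
      exact DD_step hno h (by omega) h1
  have h0 := hall r le_rfl
  rw [Nat.sub_self] at h0
  obtain ⟨y, -, -, hy, -⟩ := h0 ∅ 0 ∅ (by simp) (by simp) (by simpa using V_zero _ _)
  have hinj : Function.Injective fun q : Fin (r + 1) => c (u r x 0 y 0 q) := by
    intro q q' hqq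
    by_contra hne
    rcases lt_or_gt_of_ne hne with h1 | h1
    · exact hy q q' (Nat.zero_le _) h1 (by omega) hqq
    · exact hy q' q (Nat.zero_le _) h1 (by omega) hqq.symm
  have := Fintype.card_le_of_injective _ hinj
  simp at this

end Pool.Agent.H92.Comb
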