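import Mathlib

open MeasureTheory Set
open scoped ENNReal

namespace Pool.Agent.H92.Config

section

variable {α : Type} [MeasurableSpace α] [DiscreteMeasurableSpace α]

local instance instMS : MeasurableSpace (Finset α) := ⊤

noncomputable def nu (μ : Measure α) : ℕ → Finset α → Measure (Finset α)
  | 0, F => Measure.dirac F
  | k + 1, F => μ.bind fun f => nu μ k (haveI := Classical.decEq α; insert f F)

theorem nu_succ_apply (μ : Measure α) (k : ℕ) (F : Finset α) (W : Set (Finset α)) :
    nu μ (k + 1) F W = ∫⁻ f, nu μ k (haveI := Classical.decEq α; insert f F) W ∂μ :=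
  Measure.bind_apply MeasurableSet.of_discrete (Measurable.of_discrete).aemeasurable

theorem nu_univ (μ : Measure α) [IsProbabilityMeasure μ] (k : ℕ) (F : Finset α) :
    nu μ k F univ = 1 := by
  induction k generalizing F with
  | zero => simp [nu]
  | succ k ih => rw [nu_succ_apply]; simp [ih]

theorem ae_nu_succ (μ : Measure α) (k : ℕ) (F : Finset α) (p : Finset α → Prop) :
    (∀ᵐ W ∂(nu μ (k + 1) F), p W) ↔
      ∀ᵐ f ∂μ, ∀ᵐ W ∂(nu μ k (haveI := Classical.decEq α; insert f F)), p W := by
  simp only [ae_iff]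
  rw [nu_succ_apply, lintegral_eq_zero_iff Measurable.of_discrete]
  rfl

omit [DiscreteMeasurableSpace α] in
theorem ae_nu_zero (μ : Measure α) (F : Finset α) (p : Finset α → Prop) :
    (∀ᵐ W ∂(nu μ 0 F), p W) ↔ p F := by
  rw [nu, ae_dirac_iff MeasurableSet.of_discrete]

theorem exists_near_sup {β : Type} (G : Set β) (hG : G.Nonempty) (h : β → ℝ≥0∞) (hb : ∀ e, h e ≤ 1) :
    ∃ e ∈ G, ∀ e' ∈ G, h e' ≤ 2 * h e := by
  by_contra hcon
  push Not at hcon
  -- the supremum is positive and finite
  set S := ⨆ e ∈ G, h e with hS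
  obtain ⟨e0, he0⟩ := hG
  obtain ⟨e1, he1, h1⟩ := hcon e0 he0
  have hpos : 0 < S := by
    refine lt_of_lt_of_le (lt_of_le_of_lt zero_le h1) ?_
    exact le_iSup₂ (f := fun e (_ : e ∈ G) => h e) e1 he1
  have hfin : S ≤ 1 := iSup₂_le fun e _ => hb e
  have hhalf : S / 2 < S := ENNReal.half_lt_self hpos.ne' (ne_top_of_le_ne_top ENNReal.one_ne_top hfin)
  obtain ⟨e2, h2⟩ := lt_iSup_iff.1 hhalf
  obtain ⟨he2, h2⟩ := lt_iSup_iff.1 h2
  obtain ⟨e3, he3, h3⟩ := hcon e2 he2
  have h4 : S < h e3 := by
    refine lt_of_le_of_lt ?_ h3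
    have := (mul_le_mul_right h2.le 2 : 2 * (S / 2) ≤ 2 * h e2)
    rwa [ENNReal.mul_div_cancel (by norm_num) (by norm_num)] at this
  exact absurd (le_iSup₂ (f := fun e (_ : e ∈ G) => h e) e3 he3) (not_le.2 h4)


/-- The finite set coded by `F0` (a finite subset of `Γ`) and by positions `I` in the list `l`. -/
noncomputable def codeF (Γ : Set α) (F0 : Finset Γ) (I : Finset ℕ) (l : List α) : Finset α :=
  haveI := Classical.decEq α
  F0.image Subtype.val ∪ I.biUnion fun i => (l[i]?).toFinset

/-- States in which none of the elements `l[i]`, `i ≥ start`, has type `τ`. -/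
def rest {T : Type} (t : α → Finset α → T) (τ : T) (start : ℕ) (l : List α) : Set (Finset α) :=
  {W | ∀ i a, start ≤ i → l[i]? = some a → t a W ≠ τ}

theorem exists_next {T : Type} (μ : Measure α) [IsProbabilityMeasure μ] (t : α → Finset α → T)
    (Γ : Set α) (hΓ : Γ.Countable) (G : Set α → Set α)
    (hG : ∀ Δ : Set α, Δ.Countable → ∀ᵐ x ∂μ, x ∈ G Δ)
    (task : ℕ → Finset Γ × Finset ℕ × ℕ × T × ℕ) :
    ∃ nx : List α → α, ∀ l : List α, nx l ∈ G (Γ ∪ {a | a ∈ l}) ∧
      ∀ y ∈ G (Γ ∪ {a | a ∈ l}),
        nu μ (task l.length).2.2.1 (codeF Γ (task l.length).1 (task l.length).2.1 l)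
          ({W | t y W = (task l.length).2.2.2.1} ∩
            rest t (task l.length).2.2.2.1 (task l.length).2.2.2.2 l) ≤
        2 * nu μ (task l.length).2.2.1 (codeF Γ (task l.length).1 (task l.length).2.1 l)
          ({W | t (nx l) W = (task l.length).2.2.2.1} ∩
            rest t (task l.length).2.2.2.1 (task l.length).2.2.2.2 l) := by
  have key : ∀ l : List α, ∃ z, z ∈ G (Γ ∪ {a | a ∈ l}) ∧
      ∀ y ∈ G (Γ ∪ {a | a ∈ l}),
        nu μ (task l.length).2.2.1 (codeF Γ (task l.length).1 (task l.length).2.1 l)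
          ({W | t y W = (task l.length).2.2.2.1} ∩
            rest t (task l.length).2.2.2.1 (task l.length).2.2.2.2 l) ≤
        2 * nu μ (task l.length).2.2.1 (codeF Γ (task l.length).1 (task l.length).2.1 l)
          ({W | t z W = (task l.length).2.2.2.1} ∩
            rest t (task l.length).2.2.2.1 (task l.length).2.2.2.2 l) := by
    intro l
    have hne : (G (Γ ∪ {a | a ∈ l})).Nonempty := by
      have hc : (Γ ∪ {a | a ∈ l}).Countable := hΓ.union l.finite_toSet.countable
      exact (hG _ hc).exists
    obtain ⟨z, hz, h⟩ := exists_near_sup (G (Γ ∪ {a | a ∈ l})) hne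
      (fun z => nu μ (task l.length).2.2.1 (codeF Γ (task l.length).1 (task l.length).2.1 l)
          ({W | t z W = (task l.length).2.2.2.1} ∩
            rest t (task l.length).2.2.2.1 (task l.length).2.2.2.2 l))
      (fun z => (measure_mono (subset_univ _)).trans (nu_univ μ _ _).le)
    exact ⟨z, hz, h⟩
  choose nx hnx using key
  exact ⟨nx, hnx⟩

/-- building a sequence from its next-element function on lists -/
theorem exists_seq_of_next {β : Type} (nx : List β → β) :
    ∃ e : ℕ → β, ∀ n, e n = nx ((List.range n).map e) := by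
  let L : ℕ → List β := fun n => Nat.rec [] (fun _ l => l ++ [nx l]) n
  have hL : ∀ n, L (n + 1) = L n ++ [nx (L n)] := fun n => rfl
  have hL' : ∀ n, L n = (List.range n).map fun k => nx (L k) := by
    intro n
    induction n with
    | zero => rfl
    | succ n ih => rw [hL, List.range_succ, List.map_append, ← ih]; rfl
  refine ⟨fun n => nx (L n), fun n => ?_⟩
  show nx (L n) = nx ((List.range n).map fun n => nx (L n))
  rw [← hL']

theorem segment {T : Type} [Countable T] (μ : Measure α) [IsProbabilityMeasure μ]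
    (t : α → Finset α → T) (Γ : Set α) (hΓ : Γ.Countable) (G : Set α → Set α)
    (hG : ∀ Δ : Set α, Δ.Countable → ∀ᵐ x ∂μ, x ∈ G Δ) :
    ∃ (e : ℕ → α) (x : α), (∀ n, e n ∈ G (Γ ∪ e '' Iio n)) ∧ x ∈ G (Γ ∪ range e) ∧
      ∀ F : Finset α, (F : Set α) ⊆ Γ ∪ range e → ∀ k, ∀ᵐ W ∂(nu μ k F),
        {n | t (e n) W = t x W}.Infinite := by
  classical
  have : Nonempty α := by
    obtain ⟨x, -⟩ := (hG ∅ countable_empty).exists
    exact ⟨x⟩
  have : Nonempty T := ⟨t (Classical.arbitrary α) ∅⟩
  have : Countable Γ := hΓ.to_subtype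
  obtain ⟨f, hf⟩ := exists_surjective_nat (Finset Γ × Finset ℕ × ℕ × T × ℕ)
  set task : ℕ → Finset Γ × Finset ℕ × ℕ × T × ℕ := fun n => f n.unpair.1 with htask
  have htask' : ∀ j N, ∃ n, N ≤ n ∧ task n = j := by
    intro j N
    obtain ⟨a, ha⟩ := hf j
    exact ⟨Nat.pair a N, Nat.right_le_pair a N, by simp [htask, ha]⟩
  obtain ⟨nx, hnx⟩ := exists_next μ t Γ hΓ G hG task
  obtain ⟨e, he⟩ := exists_seq_of_next nx
  have hset : ∀ n, {a | a ∈ (List.range n).map e} = e '' Iio n := by
    intro n
    ext a
    simp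
  have hmem : ∀ n, e n ∈ G (Γ ∪ e '' Iio n) := by
    intro n
    have := (hnx ((List.range n).map e)).1
    rw [hset, ← he n] at this
    exact this
  have hx : ∃ x, (∀ n, x ∈ G (Γ ∪ e '' Iio n)) ∧ x ∈ G (Γ ∪ range e) := by
    have h1 : ∀ᵐ x ∂μ, ∀ n, x ∈ G (Γ ∪ e '' Iio n) :=
      ae_all_iff.2 fun n => hG _ (hΓ.union (((finite_Iio n).image e).countable))
    have h2 := hG (Γ ∪ range e) (hΓ.union (countable_range e))
    exact (h1.and h2).exists
  obtain ⟨x, hx1, hx2⟩ := hx
  refine ⟨e, x, hmem, hx2, ?_⟩
  -- the finite set `F` is coded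
  intro F hF k
  obtain ⟨F0, I, hFI⟩ : ∃ (F0 : Finset Γ) (I : Finset ℕ), F = F0.image Subtype.val ∪ I.image e := by
    have h1 : ∀ F : Finset α, (F : Set α) ⊆ Γ ∪ range e →
        ∃ (F0 : Finset Γ) (I : Finset ℕ), F = F0.image Subtype.val ∪ I.image e := by
      intro F
      induction F using Finset.induction_on with
      | empty => exact fun _ => ⟨∅, ∅, by simp⟩
      | insert a F ha ih =>
        intro hF
        obtain ⟨F0, I, h⟩ := ih ((Finset.coe_subset.2 (Finset.subset_insert a F)).trans hF)
        rcases hF (Finset.mem_coe.2 (Finset.mem_insert_self a F)) with h1 | ⟨n, h1⟩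
        · refine ⟨insert ⟨a, h1⟩ F0, I, ?_⟩
          rw [Finset.image_insert, Finset.insert_union, ← h]
        · refine ⟨F0, insert n I, ?_⟩
          rw [Finset.image_insert, Finset.union_insert, ← h, h1]
    exact h1 F hF
  have hcode : ∀ n, (∀ i ∈ I, i < n) → codeF Γ F0 I ((List.range n).map e) = F := by
    intro n hn
    rw [hFI]
    ext a
    simp only [codeF, Finset.mem_union, Finset.mem_biUnion, Option.mem_toFinset, Finset.mem_image,
      List.getElem?_map, Option.mem_def, Option.map_eq_some_iff]
    refine or_congr Iff.rfl ⟨?_, ?_⟩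
    · rintro ⟨i, hi, j, hj, rfl⟩
      refine ⟨i, hi, ?_⟩
      rw [List.getElem?_range (hn i hi)] at hj
      rw [Option.some.inj hj]
    · rintro ⟨i, hi, rfl⟩
      exact ⟨i, hi, i, List.getElem?_range (hn i hi), rfl⟩
  have hrest : ∀ τ start n, rest t τ start ((List.range n).map e) =
      {W | ∀ i, start ≤ i → i < n → t (e i) W ≠ τ} := by
    intro τ start n
    ext W
    simp only [rest, mem_ofPred_eq, List.getElem?_map, Option.map_eq_some_iff]
    constructor
    · intro h i hi hin
      exact h i (e i) hi ⟨i, List.getElem?_range hin, rfl⟩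
    · rintro h i a hi ⟨j, hj, rfl⟩
      have hin : i < n := by
        by_contra hcon
        rw [List.getElem?_eq_none (by simpa using hcon)] at hj
        exact absurd hj (by simp)
      rw [List.getElem?_range hin] at hj
      rw [← Option.some.inj hj]
      exact h i hi hin
  -- main claim
  have main : ∀ τ start, nu μ k F ({W | t x W = τ} ∩ {W | ∀ i, start ≤ i → t (e i) W ≠ τ}) = 0 := by
    intro τ start
    set D : ℕ → Set (Finset α) := fun n =>
      {W | start ≤ n ∧ t (e n) W = τ ∧ ∀ i, start ≤ i → i < n → t (e i) W ≠ τ} with hD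
    have hdisj : Pairwise (Function.onFun Disjoint D) := by
      intro m n hmn
      rw [Function.onFun, Set.disjoint_left]
      rintro W ⟨h1, h2, h3⟩ ⟨h4, h5, h6⟩
      rcases lt_or_gt_of_ne hmn with h | h
      · exact h6 m h1 h h2
      · exact h3 n h4 h h5
    have hsum : ∑' n, nu μ k F (D n) ≠ ⊤ := by
      rw [← measure_iUnion hdisj fun n => MeasurableSet.of_discrete]
      exact ne_top_of_le_ne_top ENNReal.one_ne_top ((measure_mono (subset_univ _)).trans (nu_univ μ k F).le)
    have htend := ENNReal.tendsto_atTop_zero_of_tsum_ne_top hsum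
    set δ := nu μ k F ({W | t x W = τ} ∩ {W | ∀ i, start ≤ i → t (e i) W ≠ τ}) with hδ
    by_contra hδ0
    have hδpos : 0 < δ / 2 := ENNReal.half_pos hδ0
    obtain ⟨N, hN⟩ := (htend.eventually (gt_mem_nhds hδpos)).exists_forall_of_atTop
    obtain ⟨B, hB⟩ : ∃ B, ∀ i ∈ I, i < B := ⟨I.sup id + 1, fun i hi => by
      have := Finset.le_sup (f := id) hi
      simp only [id] at this
      omega⟩
    obtain ⟨n, hn, hn'⟩ := htask' (F0, I, k, τ, start) (max (max N B) start)
    have h1 := (hnx ((List.range n).map e)).2 x (by rw [hset]; exact hx1 n)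
    have hlen : ((List.range n).map e).length = n := by simp
    rw [hlen, hn', ← he n] at h1
    simp only at h1
    rw [hcode n (fun i hi => lt_of_lt_of_le (hB i hi) (by omega)), hrest] at h1
    have h2 : δ ≤ 2 * nu μ k F (D n) := by
      refine le_trans ?_ (h1.trans ?_)
      · rw [hδ]
        refine measure_mono ?_
        rintro W ⟨hW1, hW2⟩
        exact ⟨hW1, fun i hi _ => hW2 i hi⟩
      · gcongr
        rintro W ⟨hW1, hW2⟩
        exact ⟨by omega, hW1, hW2⟩
    have h3 : nu μ k F (D n) < δ / 2 := hN n (by omega)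
    have h4 : δ < δ := by
      calc δ ≤ 2 * nu μ k F (D n) := h2
        _ < 2 * (δ / 2) := by
          exact (ENNReal.mul_lt_mul_iff_right (by norm_num) (by norm_num)).2 h3
        _ = δ := ENNReal.mul_div_cancel (by norm_num) (by norm_num)
    exact lt_irrefl _ h4
  have main' : ∀ᵐ W ∂(nu μ k F), ∀ start τ, ¬ (t x W = τ ∧ ∀ i, start ≤ i → t (e i) W ≠ τ) := by
    rw [ae_all_iff]
    intro start
    rw [ae_all_iff]
    intro τ
    rw [ae_iff]
    simp only [not_not]
    exact main τ start
  filter_upwards [main'] with W hW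
  refine Set.infinite_of_forall_exists_gt fun a => ?_
  have := hW (a + 1) (t x W)
  push Not at this
  obtain ⟨i, hi, h⟩ := this rfl
  exact ⟨i, h, by omega⟩


/-- all elements of a list of segments -/
def elts (L : List ((ℕ → α) × α)) : Set α := {a | ∃ s ∈ L, a ∈ range s.1 ∨ a = s.2}

/-- the reflection property of the segment `s` over the finite set `F` -/
def Refl {T : Type} (μ : Measure α) (t : α → Finset α → T) (s : (ℕ → α) × α) (F : Finset α) : Prop :=
  ∀ k, ∀ᵐ W ∂(nu μ k F), {n | t (s.1 n) W = t s.2 W}.Infinite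

structure Good {T : Type} (μ : Measure α) (t : α → Finset α → T) (L : List ((ℕ → α) × α)) : Prop where
  inj : ∀ s ∈ L, Function.Injective s.1
  ne : ∀ s ∈ L, ∀ s' ∈ L, ∀ n, s.1 n ≠ s'.2
  nodup : (L.map Prod.snd).Nodup
  refl : ∀ s ∈ L, ∀ F : Finset α, (F : Set α) ⊆ elts L \ {s.2} → Refl μ t s F

omit [MeasurableSpace α] [DiscreteMeasurableSpace α] in
theorem elts_countable (L : List ((ℕ → α) × α)) : (elts L).Countable := by
  have : elts L = ⋃ s ∈ {s | s ∈ L}, (range s.1 ∪ {s.2}) := by
    ext a
    simp only [elts, mem_ofPred_eq, mem_iUnion, mem_union, mem_singleton_iff, exists_prop]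
  rw [this]
  exact (L.finite_toSet.countable).biUnion fun s _ => (countable_range _).union (countable_singleton _)

theorem exists_good {T : Type} [Countable T] (μ : Measure α) [IsProbabilityMeasure μ]
    (hμ : ∀ x, μ {x} = 0) (t : α → Finset α → T) (K : ℕ) :
    ∃ L : List ((ℕ → α) × α), L.length = K ∧ Good μ t L := by
  classical
  have : NullSingletonClass μ := ⟨hμ⟩
  induction K with
  | zero =>
    refine ⟨[], rfl, ⟨?_, ?_, ?_, ?_⟩⟩ <;> simp
  | succ K ih =>
    obtain ⟨L, hlen, hL⟩ := ih
    set G : Set α → Set α := fun Δ => {g | g ∉ Δ ∧ ∀ s ∈ L, ∀ F : Finset α, (F : Set α) ⊆ Δ →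
      Refl μ t s F → Refl μ t s (insert g F)} with hGdef
    have hG : ∀ Δ : Set α, Δ.Countable → ∀ᵐ x ∂μ, x ∈ G Δ := by
      intro Δ hΔ
      have : Countable Δ := hΔ.to_subtype
      have h1 : ∀ᵐ g ∂μ, g ∉ Δ := by
        rw [ae_iff]
        simp only [not_not]
        exact hΔ.measure_zero μ
      have h2 : ∀ᵐ g ∂μ, ∀ s : {s // s ∈ L}, ∀ F0 : Finset Δ,
          Refl μ t s.1 (F0.map (Function.Embedding.subtype _)) →
          Refl μ t s.1 (insert g (F0.map (Function.Embedding.subtype _))) := by
        rw [ae_all_iff]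
        intro s
        rw [ae_all_iff]
        intro F0
        by_cases hR : Refl μ t s.1 (F0.map (Function.Embedding.subtype _))
        · have h3 : ∀ᵐ g ∂μ, ∀ k, ∀ᵐ W ∂(nu μ k (insert g (F0.map (Function.Embedding.subtype _)))),
              {n | t (s.1.1 n) W = t s.1.2 W}.Infinite := by
            rw [ae_all_iff]
            intro k
            have := (ae_nu_succ μ k _ _).1 (hR (k + 1))
            convert this
          filter_upwards [h3] with g hg _
          exact hg
        · exact Filter.Eventually.of_forall fun g h => absurd h hR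
      filter_upwards [h1, h2] with g hg1 hg2
      refine ⟨hg1, fun s hs F hF hR => ?_⟩
      obtain ⟨F0, rfl⟩ : ∃ F0 : Finset Δ, F = F0.map (Function.Embedding.subtype _) := by
        refine ⟨F.subtype (· ∈ Δ), ?_⟩
        rw [Finset.subtype_map_of_mem]
        exact fun x hx => hF hx
      exact hg2 ⟨s, hs⟩ F0 hR
    obtain ⟨e, x, he, hx, hseg⟩ := segment μ t (elts L) (elts_countable L) G hG
    have hel : elts ((e, x) :: L) = elts L ∪ range e ∪ {x} := by
      ext a
      simp only [elts, List.mem_cons, exists_eq_or_imp]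
      constructor
      · rintro ((h | h) | h)
        · exact Or.inl (Or.inr h)
        · exact Or.inr h
        · exact Or.inl (Or.inl h)
      · rintro ((h | h) | h)
        · exact Or.inr h
        · exact Or.inl (Or.inl h)
        · exact Or.inl (Or.inr h)
    have hemem : ∀ s ∈ L, (∀ n, s.1 n ∈ elts L) ∧ s.2 ∈ elts L := fun s hs =>
      ⟨fun n => ⟨s, hs, Or.inl ⟨n, rfl⟩⟩, ⟨s, hs, Or.inr rfl⟩⟩
    refine ⟨(e, x) :: L, by simp [hlen], ⟨?_, ?_, ?_, ?_⟩⟩
    · intro s hs
      rcases List.mem_cons.1 hs with rfl | hs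
      · intro m n hmn
        simp only at hmn
        by_contra hne
        rcases lt_or_gt_of_ne hne with h | h
        · exact (he n).1 (Or.inr ⟨m, h, hmn⟩)
        · exact (he m).1 (Or.inr ⟨n, h, hmn.symm⟩)
      · exact hL.inj s hs
    · intro s hs s' hs' n
      rcases List.mem_cons.1 hs with rfl | hs <;> rcases List.mem_cons.1 hs' with rfl | hs'
      · intro h
        exact hx.1 (Or.inr ⟨n, h⟩)
      · intro h
        exact (he n).1 (Or.inl (by simp only at h; rw [h]; exact (hemem s' hs').2))
      · intro h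
        exact hx.1 (Or.inl (by simp only at h; rw [← h]; exact (hemem s hs).1 n))
      · exact hL.ne s hs s' hs' n
    · rw [List.map_cons, List.nodup_cons]
      refine ⟨?_, hL.nodup⟩
      intro h
      obtain ⟨s, hs, h⟩ := List.mem_map.1 h
      exact hx.1 (Or.inl (by simp only at h; rw [← h]; exact (hemem s hs).2))
    · intro s hs F hF
      rw [hel] at hF
      rcases List.mem_cons.1 hs with rfl | hs
      · refine hseg F fun a ha => ?_
        rcases hF ha with ⟨h1 | h1, h2⟩
        · exact h1
        · exact absurd h1 h2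
      · -- old segment
        have stepA : ∀ n, ∀ F : Finset α, (F : Set α) ⊆ (elts L ∪ e '' Iio n) \ {s.2} → Refl μ t s F := by
          intro n
          induction n with
          | zero =>
            intro F hF
            refine hL.refl s hs F fun a ha => ?_
            have := hF ha
            simpa using this
          | succ n ih =>
            intro F hF
            by_cases hn : e n ∈ F
            · have h1 : ((F.erase (e n) : Finset α) : Set α) ⊆ (elts L ∪ e '' Iio n) \ {s.2} := by
                intro a ha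
                obtain ⟨ha1, ha2⟩ := Finset.mem_erase.1 (Finset.mem_coe.1 ha)
                obtain ⟨h3 | ⟨i, hi, rfl⟩, h4⟩ := hF (Finset.mem_coe.2 ha2)
                · exact ⟨Or.inl h3, h4⟩
                · refine ⟨Or.inr ⟨i, ?_, rfl⟩, h4⟩
                  have hin : i ≠ n := fun h => ha1 (by rw [h])
                  have : i < n + 1 := hi
                  exact show i < n by omega
              have := (he n).2 s hs (F.erase (e n)) (fun a ha => (h1 ha).1) (ih _ h1)
              rwa [Finset.insert_erase hn] at this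
            · refine ih F fun a ha => ?_
              obtain ⟨h3 | ⟨i, hi, rfl⟩, h4⟩ := hF ha
              · exact ⟨Or.inl h3, h4⟩
              · refine ⟨Or.inr ⟨i, ?_, rfl⟩, h4⟩
                have hin : i ≠ n := fun h => hn (by rw [← h]; exact ha)
                have : i < n + 1 := hi
                exact show i < n by omega
        have stepB : ∀ F : Finset α, (F : Set α) ⊆ (elts L ∪ range e) \ {s.2} → Refl μ t s F := by
          intro F hF
          have : ∃ n, (F : Set α) ⊆ elts L ∪ e '' Iio n := by
            have h1 : ∀ F : Finset α, (F : Set α) ⊆ elts L ∪ range e →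
                ∃ n, (F : Set α) ⊆ elts L ∪ e '' Iio n := by
              intro F
              induction F using Finset.induction_on with
              | empty => exact fun _ => ⟨0, by simp⟩
              | insert a F ha ih =>
                intro hF
                obtain ⟨n, hn⟩ := ih ((Finset.coe_subset.2 (Finset.subset_insert a F)).trans hF)
                rcases hF (Finset.mem_coe.2 (Finset.mem_insert_self a F)) with h1 | ⟨m, h1⟩
                · refine ⟨n, ?_⟩
                  rw [Finset.coe_insert]
                  exact insert_subset (Or.inl h1) hn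
                · refine ⟨max n (m + 1), ?_⟩
                  rw [Finset.coe_insert]
                  refine insert_subset (Or.inr ⟨m, ?_, h1⟩) (hn.trans ?_)
                  · exact show m < max n (m + 1) by omega
                  · exact union_subset_union_right _ (image_mono (Iio_subset_Iio (le_max_left _ _)))
            exact h1 F fun a ha => (hF ha).1
          obtain ⟨n, hn⟩ := this
          exact stepA n F fun a ha => ⟨hn ha, (hF ha).2⟩
        by_cases hxF : x ∈ F
        · have h1 : ((F.erase x : Finset α) : Set α) ⊆ (elts L ∪ range e) \ {s.2} := by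
            intro a ha
            obtain ⟨ha1, ha2⟩ := Finset.mem_erase.1 (Finset.mem_coe.1 ha)
            obtain ⟨h3 | h3, h4⟩ := hF (Finset.mem_coe.2 ha2)
            · exact ⟨h3, h4⟩
            · exact absurd h3 ha1
          have := hx.2 s hs (F.erase x) (fun a ha => (h1 ha).1) (stepB _ h1)
          rwa [Finset.insert_erase hxF] at this
        · refine stepB F fun a ha => ?_
          obtain ⟨h3 | h3, h4⟩ := hF ha
          · exact ⟨h3, h4⟩
          · exact absurd (by rw [← mem_singleton_iff.1 h3]; exact ha) hxF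

end

/-- Measure-free form of the result: for a set function `m` that is a diffuse probability measure
defined on all subsets of `α`. -/
theorem exists_segments {α T : Type} [Countable T] (m : Set α → ℝ) (h0 : ∀ s, 0 ≤ m s)
    (h1 : m univ = 1) (hs : ∀ x : α, m {x} = 0)
    (hadd : ∀ f : ℕ → Set α, Pairwise (Function.onFun Disjoint f) →
      HasSum (fun n => m (f n)) (m (⋃ n, f n))) (t : α → Finset α → T) (K : ℕ) :
    ∃ L : List ((ℕ → α) × α), L.length = K ∧ (∀ s ∈ L, Function.Injective s.1) ∧
      (∀ s ∈ L, ∀ s' ∈ L, ∀ n, s.1 n ≠ s'.2) ∧ (L.map Prod.snd).Nodup ∧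
      ∀ s ∈ L, ∀ F : Finset α, (F : Set α) ⊆ elts L \ {s.2} →
        {n | t (s.1 n) F = t s.2 F}.Infinite := by
  let inst : MeasurableSpace α := ⊤
  have inst2 : DiscreteMeasurableSpace α := ⟨fun _ => trivial⟩
  have hempty : m ∅ = 0 := by
    have := hadd (fun _ => ∅) (fun _ _ _ => by simp [Function.onFun])
    simp only [iUnion_empty] at this
    have hsummable := this.summable
    exact (summable_const_iff _).1 hsummable
  let μ : Measure α := Measure.ofMeasurable (fun s _ => ENNReal.ofReal (m s))
    (by simp [hempty]) (by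
      intro f _ hf
      have := hadd f hf
      rw [← this.tsum_eq, ENNReal.ofReal_tsum_of_nonneg (fun n => h0 _) this.summable])
  have happ : ∀ s, μ s = ENNReal.ofReal (m s) := fun s =>
    Measure.ofMeasurable_apply s MeasurableSet.of_discrete
  have : IsProbabilityMeasure μ := ⟨by rw [happ, h1]; simp⟩
  obtain ⟨L, hlen, hL⟩ := exists_good μ (fun x => by rw [happ, hs]; simp) t K
  exact ⟨L, hlen, hL.inj, hL.ne, hL.nodup, fun s hs F hF =>
    (ae_nu_zero μ F _).1 (hL.refl s hs F hF 0)⟩

end Pool.Agent.H92.Config
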