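import Mathlib
import Pool.Agent.H92.Config
import Pool.Agent.H92.Comb

open MeasureTheory Set
open scoped ENNReal

namespace Pool.Agent.H92.Main

open Config Comb

theorem V_finite (m : ℕ) (F : Finset ℝ) : (V m F).Finite := by
  refine (Set.finite_range (fun w : F → Fin (m + 1) => ∑ b : F, ((w b : ℕ) : ℝ) * (b : ℝ))).subset ?_
  rintro v ⟨w, hw, rfl⟩
  refine ⟨fun b => ⟨w b, Nat.lt_succ_of_le (hw b b.2)⟩, ?_⟩
  simp only
  exact Finset.sum_coe_sort F fun b => (w b : ℝ) * b

/-- the type of `e` over `F` -/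
noncomputable def typ {r : ℕ} (c : ℝ → Fin r) (M : ℕ) (e : ℝ) (F : Finset ℝ) : List (Fin r × Fin r) :=
  (V_finite M F).toFinset.toList.map fun v => (c (v + 2 * e), c (v + 4 * e))

theorem typ_eq {r : ℕ} {c : ℝ → Fin r} {M : ℕ} {e x : ℝ} {F : Finset ℝ}
    (h : typ c M e F = typ c M x F) : ∀ v ∈ V M F, c (v + 2 * e) = c (v + 2 * x) ∧
      c (v + 4 * e) = c (v + 4 * x) := by
  intro v hv
  have h1 := List.map_eq_map_iff.1 h v (by simpa using hv)
  exact Prod.mk.inj h1

theorem exists_conf (m : Set ℝ → ℝ) (h0 : ∀ s, 0 ≤ m s) (h1 : m univ = 1)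
    (hs : ∀ x : ℝ, m {x} = 0)
    (hadd : ∀ f : ℕ → Set ℝ, Pairwise (Function.onFun Disjoint f) →
      HasSum (fun n => m (f n)) (m (⋃ n, f n))) {r : ℕ} (c : ℝ → Fin r) (K M : ℕ) :
    ∃ (E : ℕ → ℕ → ℝ) (x : ℕ → ℝ), Conf c K M E x := by
  obtain ⟨L, hlen, hinj, hne, hnd, hrefl⟩ := exists_segments m h0 h1 hs hadd (typ c M) K
  have hget : ∀ j < K, L.getD j default ∈ L := by
    intro j hj
    rw [List.getD_eq_getElem _ _ (by omega)]
    exact List.getElem_mem _
  refine ⟨fun j => (L.getD j default).1, fun j => (L.getD j default).2, ⟨?_, ?_, ?_, ?_⟩⟩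
  · intro j hj
    exact hinj _ (hget j hj)
  · intro i hi j hj n
    exact hne _ (hget i hi) _ (hget j hj) n
  · intro i hi j hj hij heq
    rw [List.nodup_iff_injective_getElem] at hnd
    rw [List.getD_eq_getElem _ _ (by omega), List.getD_eq_getElem _ _ (by omega)] at heq
    have h1 := @hnd ⟨i, by simp; omega⟩ ⟨j, by simp; omega⟩ (by simpa using heq)
    exact hij (by simpa using h1)
  · intro j hj F hF hxF
    have hsub : (F : Set ℝ) ⊆ elts L \ {(L.getD j default).2} := by
      intro a ha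
      refine ⟨?_, fun h => hxF (by rw [mem_singleton_iff] at h; rw [← h]; exact ha)⟩
      obtain ⟨i, hi, h | ⟨n, h⟩⟩ := hF a ha
      · exact ⟨_, hget i hi, Or.inr h⟩
      · exact ⟨_, hget i hi, Or.inl ⟨n, h.symm⟩⟩
    refine (hrefl _ (hget j hj) F hsub).mono fun n hn => ?_
    exact typ_eq hn

/-- Finite colourings, for any diffuse probability measure defined on all sets of reals. -/
theorem finite_part (m : Set ℝ → ℝ) (h0 : ∀ s, 0 ≤ m s) (h1 : m univ = 1)
    (hs : ∀ x : ℝ, m {x} = 0)
    (hadd : ∀ f : ℕ → Set ℝ, Pairwise (Function.onFun Disjoint f) →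
      HasSum (fun n => m (f n)) (m (⋃ n, f n))) (r : ℕ) (c : ℝ → Fin r) :
    ∃ X : Set ℝ, X.Infinite ∧ ∃ k : Fin r, ∀ x ∈ X, ∀ y ∈ X, c (x + y) = k := by
  obtain ⟨E, x, h⟩ := exists_conf m h0 h1 hs hadd c r (18 * r)
  exact not_not.1 (not_noMono h)

/-! ### The countable colouring -/

/-- step functions with rational data -/
noncomputable def step (L : List (ℚ × ℚ × ℚ)) (t : ℝ) : ℚ :=
  L.foldr (fun p acc => by
    classical exact if (p.1 : ℝ) < t ∧ t < (p.2.1 : ℝ) then p.2.2 else acc) 0

theorem exists_step (f : ℝ → ℚ) (S : Finset ℝ) : ∃ L, ∀ s ∈ S, step L s = f s := by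
  classical
  induction S using Finset.induction_on with
  | empty => exact ⟨[], by simp⟩
  | insert a S ha ih =>
    obtain ⟨L, hL⟩ := ih
    obtain ⟨ε, hε, hball⟩ : ∃ ε > 0, ∀ s ∈ S, ε ≤ |s - a| := by
      rcases S.eq_empty_or_nonempty with rfl | hne
      · exact ⟨1, one_pos, by simp⟩
      · refine ⟨S.inf' hne fun s => |s - a|, ?_, fun s hs => Finset.inf'_le _ hs⟩
        rw [gt_iff_lt, Finset.lt_inf'_iff]
        intro s hs
        exact abs_pos.2 (sub_ne_zero.2 fun h => ha (h ▸ hs))
    obtain ⟨p, hp1, hp2⟩ := exists_rat_btwn (show a - ε < a by linarith)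
    obtain ⟨q, hq1, hq2⟩ := exists_rat_btwn (show a < a + ε by linarith)
    refine ⟨(p, q, f a) :: L, fun s hs => ?_⟩
    rcases Finset.mem_insert.1 hs with rfl | hs
    · simp only [step, List.foldr_cons]
      rw [if_pos ⟨hp2, hq1⟩]
    · have h1 := hball s hs
      simp only [step, List.foldr_cons]
      rw [if_neg]
      · exact hL s hs
      · rintro ⟨h2, h3⟩
        have : |s - a| < ε := by
          rw [abs_lt]
          constructor <;> linarith
        linarith

theorem countable_part : ∃ c : ℝ → ℕ, ∀ X : Set ℝ, X.Infinite →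
    ∃ x ∈ X, ∃ y ∈ X, ∃ z ∈ X, ∃ w ∈ X, c (x + y) ≠ c (z + w) := by
  classical
  let B := Module.Basis.ofVectorSpace ℚ ℝ
  have hL : ∀ x : ℝ, ∃ L, ∀ i ∈ (B.repr x).support, step L (i : ℝ) = B.repr x i := by
    intro x
    obtain ⟨L, hL⟩ := exists_step (fun t => if h : t ∈ Module.Basis.ofVectorSpaceIndex ℚ ℝ then
      B.repr x ⟨t, h⟩ else 0) ((B.repr x).support.image Subtype.val)
    refine ⟨L, fun i hi => ?_⟩
    rw [hL i (Finset.mem_image_of_mem _ hi)]
    simp
  choose L hL using hL
  refine ⟨fun x => Encodable.encode (L x), fun X hX => ?_⟩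
  obtain ⟨x, hx, y, hy, hxy⟩ := hX.nontrivial
  by_contra hcon
  push Not at hcon
  have h1 : L (x + x) = L (x + y) := Encodable.encode_injective (hcon x hx x hx x hx y hy)
  have h2 : L (y + y) = L (x + y) := Encodable.encode_injective (hcon y hy y hy x hx y hy)
  have key : ∀ x y : ℝ, L (x + x) = L (x + y) → L (y + y) = L (x + y) →
      ∀ i, B.repr x i ≠ 0 → B.repr y i = B.repr x i := by
    intro x y h1 h2 i hi
    have e1 : step (L (x + y)) (i : ℝ) = B.repr x i + B.repr x i := by
      rw [← h1, hL (x + x) i]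
      · simp
      · rw [Finsupp.mem_support_iff, map_add, Finsupp.add_apply]
        intro h
        exact hi (by linarith)
    by_cases h3 : B.repr x i + B.repr y i = 0
    · have h4 : B.repr y i ≠ 0 := fun h => hi (by linarith)
      have e2 : step (L (x + y)) (i : ℝ) = B.repr y i + B.repr y i := by
        rw [← h2, hL (y + y) i]
        · simp
        · rw [Finsupp.mem_support_iff, map_add, Finsupp.add_apply]
          intro h
          exact h4 (by linarith)
      exfalso
      apply hi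
      linarith
    · have e2 : step (L (x + y)) (i : ℝ) = B.repr x i + B.repr y i := by
        rw [hL (x + y) i]
        · simp
        · rw [Finsupp.mem_support_iff, map_add, Finsupp.add_apply]
          exact h3
      linarith
  apply hxy
  apply B.repr.injective
  ext i
  by_cases hi : B.repr x i = 0
  · by_cases hi' : B.repr y i = 0
    · rw [hi, hi']
    · exact key y x (by rw [add_comm y x]; exact h2) (by rw [add_comm y x]; exact h1) i hi'
  · exact (key x y h1 h2 i hi).symm

end Pool.Agent.H92.Main
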